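import Pool.Agent.Lib.MP_0523aa_nt.Height

/-!
Counting the divisors of X^(2 q^b) - 1 by height.
-/

namespace Pool.Agent.Lib.MP_0523aa_nt

open Polynomial Finset

/-- Two coefficients at distance `d` have product `ε`. -/
def Adj (d : ℕ) (ε : ℤ) (T : ℤ[X]) : Prop := ∃ k, T.coeff k * T.coeff (k + d) = ε

theorem coeff_sparse {q : ℕ} (hq : 0 < q) {w : ℤ[X]} (hw : Sparse q w) (g : ℤ[X]) {i : ℕ}
    (hi : w.coeff i ≠ 0) (j : ℕ) :
    (w * expand ℤ q g).coeff (i + q * j) = w.coeff i * g.coeff j := by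
  rw [coeff_mul, Finset.sum_eq_single (i, q * j)]
  · rw [coeff_expand hq, if_pos (dvd_mul_right q j), Nat.mul_div_cancel_left j hq]
  · intro y hy hyx
    by_contra hy0
    apply hyx
    have hy2 : q ∣ y.2 := by
      have := right_ne_zero_of_mul hy0
      rw [coeff_expand hq] at this
      by_contra h
      simp [h] at this
    rw [HasAntidiagonal.mem_antidiagonal] at hy
    obtain ⟨c, hc⟩ := hy2
    have hmod : y.1 % q = i % q := by
      have e1 : (y.1 + q * c) % q = y.1 % q := by simp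
      have e2 : (i + q * j) % q = i % q := by simp
      rw [← e1, ← e2, ← hc, hy]
    have h1 : y.1 = i := hw.2 _ _ (left_ne_zero_of_mul hy0) hi hmod
    exact Prod.ext h1 (by simp only; omega)
  · intro h
    simp at h

theorem exists_of_coeff {q : ℕ} (hq : 0 < q) {w g : ℤ[X]} {n : ℕ}
    (h : (w * expand ℤ q g).coeff n ≠ 0) : ∃ i j, n = i + q * j ∧ w.coeff i ≠ 0 := by
  rw [coeff_mul] at h
  obtain ⟨y, hy, hy0⟩ := Finset.exists_ne_zero_of_sum_ne_zero h
  have hy2 : q ∣ y.2 := by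
    have := right_ne_zero_of_mul hy0
    rw [coeff_expand hq] at this
    by_contra h
    simp [h] at this
  obtain ⟨c, hc⟩ := hy2
  rw [HasAntidiagonal.mem_antidiagonal] at hy
  exact ⟨y.1, c, by omega, left_ne_zero_of_mul hy0⟩

theorem adj_iff {q : ℕ} (hq : 0 < q) {w : ℤ[X]} (hw : Sparse q w) (g : ℤ[X]) (d : ℕ) {ε : ℤ}
    (hε : ε ≠ 0) : Adj d ε (w * expand ℤ q g) ↔ ∃ i i' j j', i + q * j + d = i' + q * j' ∧
      w.coeff i ≠ 0 ∧ w.coeff i' ≠ 0 ∧ w.coeff i * w.coeff i' * (g.coeff j * g.coeff j') = ε := by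
  constructor
  · rintro ⟨k, hk⟩
    obtain ⟨i, j, rfl, hi⟩ := exists_of_coeff hq (left_ne_zero_of_mul (hk ▸ hε))
    obtain ⟨i', j', e, hi'⟩ := exists_of_coeff hq (right_ne_zero_of_mul (hk ▸ hε))
    rw [e, coeff_sparse hq hw g hi, coeff_sparse hq hw g hi'] at hk
    exact ⟨i, i', j, j', e, hi, hi', by linear_combination hk⟩
  · rintro ⟨i, i', j, j', e, hi, hi', h⟩
    refine ⟨i + q * j, ?_⟩
    rw [e, coeff_sparse hq hw g hi, coeff_sparse hq hw g hi']
    linear_combination h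

theorem shift_cases {q i i' j j' d : ℕ} (e : i + q * j + d = i' + q * j') (hi : i + d ≤ 2 * q)
    (hi' : i' < 2 * q) (hq : 0 < q) :
    (j = j' + 1 ∧ i + q + d = i') ∨ (j' = j ∧ i + d = i') ∨ (j' = j + 1 ∧ i + d = i' + q) ∨
      (j' = j + 2 ∧ i + d = i' + 2 * q) := by
  have h1 : j' ≤ j + 2 := by
    by_contra h
    have := Nat.mul_le_mul_left q (show j + 3 ≤ j' by omega)
    rw [mul_add] at this
    omega
  have h2 : j ≤ j' + 1 := by
    by_contra h
    have := Nat.mul_le_mul_left q (show j' + 2 ≤ j by omega)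
    rw [mul_add] at this
    omega
  rcases (by omega : j = j' + 1 ∨ j' = j ∨ j' = j + 1 ∨ j' = j + 2) with h | h | h | h <;>
    subst h <;> (try rw [mul_add] at e) <;> omega

section lev

variable {q : ℕ}

theorem lev_ff (k : ℕ) : (lev q false false 0).coeff k = if k = 0 then 1 else 0 := by
  simp [lev, coeff_one]

theorem lev_tf (hq : q.Prime) (k : ℕ) : (lev q true false 0).coeff k = if k < q then 1 else 0 := by
  have : Fact q.Prime := ⟨hq⟩
  simp only [lev, zero_add, pow_one, if_true, Bool.false_eq_true, if_false, mul_one]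
  rw [cyclotomic_prime ℤ q, coeff_geom]

theorem lev_ft (hq : q.Prime) (hodd : Odd q) (k : ℕ) :
    (lev q false true 0).coeff k = if k < q then (-1) ^ k else 0 := by
  simp only [lev, zero_add, pow_one, if_true, Bool.false_eq_true, if_false, one_mul]
  rw [cyc_two_eq hq hodd, coeff_geom_neg]

theorem lev_tt (hq : q.Prime) (hodd : Odd q) (k : ℕ) :
    (lev q true true 0).coeff k = if k % 2 = 0 ∧ k < 2 * q then 1 else 0 := by
  simp only [lev, zero_add, pow_one, if_true]
  rw [cyc_mul_cyc hq hodd, coeff_expand (by norm_num), coeff_geom]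
  split_ifs <;> first | rfl | omega

theorem three_le (hq : q.Prime) (hodd : Odd q) : 3 ≤ q := by
  have := hq.two_le
  obtain ⟨c, hc⟩ := hodd
  omega

theorem adj_ff (hq : q.Prime) (hodd : Odd q) (g : ℤ[X]) {d : ℕ} (hd : d = 1 ∨ d = 2) {ε : ℤ}
    (hε : ε ≠ 0) : ¬ Adj d ε (lev q false false 0 * expand ℤ q g) := by
  have h3 := three_le hq hodd
  rw [adj_iff hq.pos (sparse_lev hq hodd _ _) g d hε]
  rintro ⟨i, i', j, j', e, hi, hi', -⟩
  rw [lev_ff, ite_ne_right_iff] at hi hi'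
  have := shift_cases e (by omega) (by omega) hq.pos
  omega

theorem adj_tf (hq : q.Prime) (hodd : Odd q) (g : ℤ[X]) {d : ℕ} (hd : d = 1 ∨ d = 2) :
    Adj d (-1) (lev q true false 0 * expand ℤ q g) ↔ Adj 1 (-1) g := by
  have h3 := three_le hq hodd
  rw [adj_iff hq.pos (sparse_lev hq hodd _ _) g d (by norm_num)]
  simp only [lev_tf hq, ite_ne_right_iff]
  constructor
  · rintro ⟨i, i', j, j', e, ⟨hi, -⟩, ⟨hi', -⟩, h⟩
    rw [if_pos hi, if_pos hi', one_mul, one_mul] at h
    rcases shift_cases e (by omega) (by omega) hq.pos with h1 | h1 | h1 | h1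
    · omega
    · rw [h1.1] at h
      nlinarith [mul_self_nonneg (g.coeff j)]
    · exact ⟨j, h1.1 ▸ h⟩
    · omega
  · rintro ⟨j, h⟩
    refine ⟨q - 1, d - 1, j, j + 1, by rw [mul_add]; omega, ⟨by omega, one_ne_zero⟩,
      ⟨by omega, one_ne_zero⟩, ?_⟩
    rw [if_pos (by omega), if_pos (by omega), one_mul, one_mul, h]

theorem adj_tf' (hq : q.Prime) (hodd : Odd q) {g : ℤ[X]} (hg : g.coeff 0 = 1) :
    Adj 1 1 (lev q true false 0 * expand ℤ q g) := by
  have h3 := three_le hq hodd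
  rw [adj_iff hq.pos (sparse_lev hq hodd _ _) g 1 one_ne_zero]
  refine ⟨0, 1, 0, 0, rfl, ?_⟩
  simp only [lev_tf hq, hg, if_pos (show 0 < q by omega), if_pos (show 1 < q by omega)]
  norm_num

theorem adj_ft' (hq : q.Prime) (hodd : Odd q) {g : ℤ[X]} (hg : g.coeff 0 = 1) :
    Adj 1 (-1) (lev q false true 0 * expand ℤ q g) := by
  have h3 := three_le hq hodd
  rw [adj_iff hq.pos (sparse_lev hq hodd _ _) g 1 (by norm_num)]
  refine ⟨0, 1, 0, 0, rfl, ?_⟩
  simp only [lev_ft hq hodd, hg, if_pos (show 0 < q by omega), if_pos (show 1 < q by omega)]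
  norm_num

theorem adj_ft (hq : q.Prime) (hodd : Odd q) (g : ℤ[X]) {d : ℕ} (hd : d = 1 ∨ d = 2) :
    Adj d ((-1) ^ (d + 1)) (lev q false true 0 * expand ℤ q g) ↔ Adj 1 1 g := by
  have h3 := three_le hq hodd
  rw [adj_iff hq.pos (sparse_lev hq hodd _ _) g d (by positivity)]
  simp only [lev_ft hq hodd, ite_ne_right_iff]
  have hm : ∀ i : ℕ, (-1 : ℤ) ^ i * (-1) ^ i = 1 := fun i => by rw [← mul_pow]; simp
  constructor
  · rintro ⟨i, i', j, j', e, ⟨hi, -⟩, ⟨hi', -⟩, h⟩
    rw [if_pos hi, if_pos hi'] at h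
    rcases shift_cases e (by omega) (by omega) hq.pos with h1 | h1 | h1 | h1
    · omega
    · rw [h1.1, ← h1.2, pow_add, pow_succ] at h
      have h2 : g.coeff j * g.coeff j = -1 := by
        linear_combination (-1) ^ d * h - g.coeff j * g.coeff j * ((-1) ^ d * (-1) ^ d) * hm i -
          (g.coeff j * g.coeff j + 1) * hm d
      nlinarith [mul_self_nonneg (g.coeff j)]
    · refine ⟨j, ?_⟩
      have h2 : (-1 : ℤ) ^ i * (-1) ^ d = (-1) ^ i' * (-1) := by
        rw [← pow_add, h1.2, pow_add, hodd.neg_one_pow]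
      rw [h1.1, pow_succ] at h
      linear_combination (-(-1) ^ d) * h + (-1) ^ i' * (g.coeff j * g.coeff (j + 1)) * h2 -
        (g.coeff j * g.coeff (j + 1)) * hm i' + hm d
    · omega
  · rintro ⟨j, h⟩
    refine ⟨q - 1, d - 1, j, j + 1, by rw [mul_add]; omega, ⟨by omega, by positivity⟩,
      ⟨by omega, by positivity⟩, ?_⟩
    rw [if_pos (by omega), if_pos (by omega), h, (Nat.Odd.sub_odd hodd odd_one).neg_one_pow]
    rcases hd with rfl | rfl <;> norm_num

theorem adj_tt (hq : q.Prime) (hodd : Odd q) (g : ℤ[X]) {d : ℕ} {ε : ℤ}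
    (hd : (d = 1 ∧ ε ≠ 0) ∨ (d = 2 ∧ ε = -1)) :
    Adj d ε (lev q true true 0 * expand ℤ q g) ↔ Adj d ε g := by
  have h3 := three_le hq hodd
  obtain ⟨c, hc⟩ := id hodd
  rw [adj_iff hq.pos (sparse_lev hq hodd _ _) g d (by omega)]
  simp only [lev_tt hq hodd, ite_ne_right_iff]
  constructor
  · rintro ⟨i, i', j, j', e, ⟨hi, -⟩, ⟨hi', -⟩, h⟩
    rw [if_pos hi, if_pos hi', one_mul, one_mul] at h
    rcases shift_cases e (by omega) (by omega) hq.pos with h1 | h1 | h1 | h1
    · obtain rfl : d = 1 := by omega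
      exact ⟨j', by rw [← h, h1.1, mul_comm]⟩
    · rw [h1.1] at h
      have := mul_self_nonneg (g.coeff j)
      omega
    · obtain rfl : d = 1 := by omega
      exact ⟨j, h1.1 ▸ h⟩
    · obtain rfl : d = 2 := by omega
      exact ⟨j, h1.1 ▸ h⟩
  · rintro ⟨j, h⟩
    refine ⟨q * d - d, 0, j, j + d, ?_, ⟨?_, one_ne_zero⟩, ⟨by omega, one_ne_zero⟩, ?_⟩
    · rcases hd with ⟨rfl, -⟩ | ⟨rfl, -⟩ <;> rw [mul_add] <;> omega
    · rcases hd with ⟨rfl, -⟩ | ⟨rfl, -⟩ <;> omega
    · rw [if_pos (by rcases hd with ⟨rfl, -⟩ | ⟨rfl, -⟩ <;> omega), if_pos (by omega), one_mul,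
        one_mul, h]

end lev

/-- The products of the factors at the levels `1, ..., b`. -/
noncomputable def SS (q : ℕ) : ℕ → Finset ℤ[X]
  | 0 => {1}
  | b + 1 => ((univ : Finset (Bool × Bool)) ×ˢ SS q b).image
      fun x => lev q x.1.1 x.1.2 0 * expand ℤ q x.2

variable {q : ℕ}

theorem tail_mem (hq : q.Prime) (b : ℕ) : ∀ s t : ℕ → Bool, tail q s t b ∈ SS q b := by
  induction b with
  | zero => intro s t; simp [tail, SS]
  | succ b ih =>
    intro s t
    rw [tail_succ hq, SS]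
    exact mem_image.2 ⟨((s 0, t 0), _), mem_product.2 ⟨mem_univ _, ih _ _⟩, rfl⟩

theorem mem_SS (hq : q.Prime) (hodd : Odd q) (b : ℕ) : ∀ T ∈ SS q b,
    T ∣ tail q (fun _ => true) (fun _ => true) b ∧ Bdd 1 T ∧ T.coeff 0 = 1 ∧ T.eval 1 ≠ 0 ∧
      T.eval (-1) ≠ 0 := by
  have : Fact q.Prime := ⟨hq⟩
  induction b with
  | zero =>
    intro T hT
    obtain rfl := mem_singleton.1 hT
    refine ⟨one_dvd _, (sparse_one q).1, by simp, by simp, by simp⟩
  | succ b ih =>
    intro T hT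
    obtain ⟨⟨⟨s, t⟩, g⟩, hx, rfl⟩ := mem_image.1 hT
    obtain ⟨h1, h2, h3, h4, h5⟩ := ih g (mem_product.1 hx).2
    have e1 : (cyclotomic q ℤ).eval 1 = q := eval_one_cyclotomic_prime
    have e2 : (cyclotomic q ℤ).eval (-1) = 1 := by
      have := congrArg (eval (-1)) (cyclotomic_prime_mul_X_sub_one ℤ q)
      simp only [eval_mul, eval_sub, eval_X, eval_one, eval_pow, hodd.neg_one_pow] at this
      omega
    have e3 : (cyclotomic (2 * q) ℤ).eval 1 = 1 := by
      have := congrArg (eval 1) (cyc_two_mul hq hodd)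
      simp only [eval_mul, eval_add, eval_X, eval_one, eval_pow, one_pow] at this
      omega
    have e4 : (cyclotomic (2 * q) ℤ).eval (-1) = q := by
      rw [cyc_two_eq hq hodd]
      simp [eval_finsetSum]
    have hq0 := hq.ne_zero
    refine ⟨?_, bdd_mul_expand hq.pos (sparse_lev hq hodd _ _) h2, ?_, ?_, ?_⟩
    · rw [tail_succ hq]
      refine mul_dvd_mul ?_ (_root_.map_dvd (expand ℤ q) h1)
      cases s <;> cases t <;> simp [lev]
    · rw [mul_coeff_zero, coeff_expand hq.pos, if_pos (dvd_zero q), Nat.zero_div, h3, mul_one]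
      cases s <;> cases t <;> simp [lev_ff, lev_tf hq, lev_ft hq hodd, lev_tt hq hodd, hq.pos]
    · rw [eval_mul, expand_eval, one_pow]
      refine mul_ne_zero ?_ h4
      cases s <;> cases t <;> simp [lev, e1, e3, hq0]
    · rw [eval_mul, expand_eval, hodd.neg_one_pow]
      refine mul_ne_zero ?_ h5
      cases s <;> cases t <;> simp [lev, e2, e4, hq0]

theorem inj_SS (hq : q.Prime) (hodd : Odd q) (b : ℕ) :
    Set.InjOn (fun x : (Bool × Bool) × ℤ[X] => lev q x.1.1 x.1.2 0 * expand ℤ q x.2)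
      ((univ : Finset (Bool × Bool)) ×ˢ SS q b : Finset _) := by
  have h3 := three_le hq hodd
  have hc : ∀ (w g : ℤ[X]) (k : ℕ), k < q → g.coeff 0 = 1 →
      (w * expand ℤ q g).coeff k = w.coeff k := by
    intro w g k hk hg
    rw [coeff_mul, Finset.sum_eq_single (k, 0)]
    · rw [coeff_expand hq.pos, if_pos (dvd_zero q), Nat.zero_div, hg, mul_one]
    · intro y hy hyx
      rw [HasAntidiagonal.mem_antidiagonal] at hy
      rw [coeff_expand hq.pos, if_neg, mul_zero]
      intro hd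
      have := Nat.eq_zero_of_dvd_of_lt hd (by omega)
      exact hyx (Prod.ext (by simp only; omega) this)
    · intro h
      simp at h
  rintro ⟨⟨s, t⟩, g⟩ hx ⟨⟨s', t'⟩, g'⟩ hx' h
  have hg := (mem_SS hq hodd b g (mem_product.1 (mem_coe.1 hx)).2).2.2.1
  have hg' := (mem_SS hq hodd b g' (mem_product.1 (mem_coe.1 hx')).2).2.2.1
  have h1 := congrArg (coeff · 1) h
  have h2 := congrArg (coeff · 2) h
  simp only [hc _ _ 1 (by omega) hg, hc _ _ 1 (by omega) hg', hc _ _ 2 (by omega) hg,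
    hc _ _ 2 (by omega) hg'] at h1 h2
  have a1 : 1 < q := by omega
  have a2 : 2 < q := by omega
  obtain ⟨rfl, rfl⟩ : s = s' ∧ t = t' := by
    cases s <;> cases t <;> cases s' <;> cases t' <;>
      simp [lev_ff, lev_tf hq, lev_ft hq hodd, lev_tt hq hodd, a1, a2] at h1 h2 ⊢
  have h0 : lev q s t 0 ≠ 0 := fun h0 => by
    have := congrArg (coeff · 0) h0
    cases s <;> cases t <;> simp [lev_ff, lev_tf hq, lev_ft hq hodd, lev_tt hq hodd, hq.pos] at this
  have hh : g = g' := expand_injective hq.pos (mul_left_cancel₀ h0 h)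
  rw [hh]

open Classical in
/-- The number of elements of `s` with property `P`. -/
noncomputable def cnt (s : Finset ℤ[X]) (P : ℤ[X] → Prop) : ℕ := #(s.filter P)

theorem cnt_all {s : Finset ℤ[X]} {P : ℤ[X] → Prop} (h : ∀ g ∈ s, P g) : cnt s P = s.card := by
  classical
  rw [cnt, filter_true_of_mem h]

theorem cnt_false (s : Finset ℤ[X]) : cnt s (fun _ => False) = 0 := by simp [cnt]

theorem card_step (hq : q.Prime) (hodd : Odd q) (b : ℕ) (P : ℤ[X] → Prop) :
    cnt (SS q (b + 1)) P =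
      cnt (SS q b) (fun g => P (lev q true true 0 * expand ℤ q g)) +
      cnt (SS q b) (fun g => P (lev q true false 0 * expand ℤ q g)) +
      (cnt (SS q b) (fun g => P (lev q false true 0 * expand ℤ q g)) +
      cnt (SS q b) (fun g => P (lev q false false 0 * expand ℤ q g))) := by
  classical
  rw [cnt, SS, filter_image, card_image_of_injOn ((inj_SS hq hodd b).mono (by
    exact_mod_cast filter_subset _ _))]
  simp only [cnt, card_filter, sum_product, Fintype.sum_prod_type, Fintype.sum_bool]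

theorem card_SS (hq : q.Prime) (hodd : Odd q) (b : ℕ) :
    #(SS q b) = 4 ^ b ∧ 2 * cnt (SS q b) (Adj 1 (-1)) + 2 ^ b = 4 ^ b ∧
      2 * cnt (SS q b) (Adj 1 1) + 2 ^ b = 4 ^ b ∧
      3 * cnt (SS q b) (Adj 2 (-1)) + 3 * 2 ^ b = 4 ^ b + 2 := by
  induction b with
  | zero =>
    have h : ∀ d ε, 0 < d → ε ≠ 0 → ¬ Adj d ε 1 := by
      rintro d ε hd hε ⟨k, hk⟩
      rw [coeff_one (n := k + d), if_neg (by omega), mul_zero] at hk
      exact hε hk.symm
    simp [cnt, SS, filter_singleton, h]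
  | succ b ih =>
    obtain ⟨h0, h1, h2, h3⟩ := ih
    have e0 := card_step hq hodd b fun _ => True
    have e1 := card_step hq hodd b (Adj 1 (-1))
    have e2 := card_step hq hodd b (Adj 1 1)
    have e3 := card_step hq hodd b (Adj 2 (-1))
    have a1 := fun g => adj_ft hq hodd g (d := 1) (Or.inl rfl)
    have a2 := fun g => adj_ft hq hodd g (d := 2) (Or.inr rfl)
    norm_num only at a1 a2
    simp only [cnt_all fun _ _ => trivial] at e0
    rw [cnt_all fun g hg => adj_ft' hq hodd (mem_SS hq hodd b g hg).2.2.1] at e1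
    rw [cnt_all fun g hg => adj_tf' hq hodd (mem_SS hq hodd b g hg).2.2.1] at e2
    simp only [adj_tt hq hodd _ (Or.inl ⟨rfl, (by norm_num : (-1 : ℤ) ≠ 0)⟩),
      adj_tt hq hodd _ (Or.inl ⟨rfl, one_ne_zero⟩), adj_tt hq hodd _ (Or.inr ⟨rfl, rfl⟩),
      adj_tf hq hodd _ (Or.inl rfl), adj_tf hq hodd _ (Or.inr rfl), a1, a2,
      adj_ff hq hodd _ (Or.inl rfl) (by norm_num : (-1 : ℤ) ≠ 0),
      adj_ff hq hodd _ (Or.inl rfl) one_ne_zero,
      adj_ff hq hodd _ (Or.inr rfl) (by norm_num : (-1 : ℤ) ≠ 0), cnt_false] at e1 e2 e3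
    eta_reduce at e1 e2 e3
    rw [pow_succ, pow_succ]
    omega

/-- The sign and the factors at level `0`. -/
noncomputable def hd (u s t : Bool) : ℤ[X] :=
  (if u then -1 else 1) * (if s then X - 1 else 1) * (if t then X + 1 else 1)

/-- All divisors. -/
noncomputable def DD (q b : ℕ) : Finset ℤ[X] :=
  ((univ : Finset (Bool × Bool × Bool)) ×ˢ SS q b).image fun x => hd x.1.1 x.1.2.1 x.1.2.2 * x.2

theorem mem_DD (hq : q.Prime) (hodd : Odd q) (b : ℕ) (f : ℤ[X]) :
    f ∈ DD q b ↔ f ∣ X ^ (2 * q ^ b) - 1 := by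
  rw [← full_prod hq hodd b]
  constructor
  · intro hf
    obtain ⟨⟨⟨u, s, t⟩, g⟩, hx, rfl⟩ := mem_image.1 hf
    refine mul_dvd_mul ?_ (mem_SS hq hodd b g (mem_product.1 hx).2).1
    rw [hd, mul_assoc, IsUnit.mul_left_dvd (by cases u <;> simp)]
    cases s <;> cases t <;> simp
  · intro hf
    have i1 : Irreducible (X - 1 : ℤ[X]) := by
      simpa using (cyclotomic.irreducible (n := 1) (by norm_num))
    have i2 : Irreducible (X + 1 : ℤ[X]) := by
      simpa using (cyclotomic.irreducible (n := 2) (by norm_num))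
    rw [show (X - 1) * (X + 1) * tail q (fun _ => true) (fun _ => true) b =
      tail q (fun _ => true) (fun _ => true) b * (X - 1) * (X + 1) by ring] at hf
    obtain ⟨f₁, t0, h1, h1a⟩ := dvd_irred_split i2 hf
    obtain ⟨f₂, s0, h2, h2a⟩ := dvd_irred_split i1 h1
    obtain ⟨s, t, h3⟩ := dvd_tail hq b f₂ h2
    obtain ⟨v, hv⟩ := (h1a.trans
      (Associated.mul_right (h2a.trans (Associated.mul_right h3 _)) _)).symm
    obtain ⟨r, hr, hru⟩ := Polynomial.isUnit_iff.1 v.isUnit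
    rw [← hv, ← hru]
    rcases Int.isUnit_iff.1 hr with rfl | rfl
    · exact mem_image.2 ⟨((false, s0, t0), tail q s t b), mem_product.2 ⟨mem_univ _, tail_mem hq b s t⟩, by
        simp only [hd, Bool.false_eq_true, if_false, map_one]; ring⟩
    · exact mem_image.2 ⟨((true, s0, t0), tail q s t b), mem_product.2 ⟨mem_univ _, tail_mem hq b s t⟩, by
        simp only [hd, if_true, map_neg, map_one]; ring⟩

theorem inj_DD (hq : q.Prime) (hodd : Odd q) (b : ℕ) :
    Set.InjOn (fun x : (Bool × Bool × Bool) × ℤ[X] => hd x.1.1 x.1.2.1 x.1.2.2 * x.2)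
      ((univ : Finset (Bool × Bool × Bool)) ×ˢ SS q b : Finset _) := by
  rintro ⟨⟨u, s, t⟩, g⟩ hx ⟨⟨u', s', t'⟩, g'⟩ hx' h
  obtain ⟨-, -, a0, a1, a2⟩ := mem_SS hq hodd b g (mem_product.1 (mem_coe.1 hx)).2
  obtain ⟨-, -, b0, b1, b2⟩ := mem_SS hq hodd b g' (mem_product.1 (mem_coe.1 hx')).2
  rw [coeff_zero_eq_eval_zero] at a0 b0
  have h0 := congrArg (eval 0) h
  have h1 : eval 1 (hd u s t * g) = 0 ↔ eval 1 (hd u' s' t' * g') = 0 :=
    (congrArg (eval 1 · = 0) h).to_iff
  have h2 : eval (-1) (hd u s t * g) = 0 ↔ eval (-1) (hd u' s' t' * g') = 0 :=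
    (congrArg (eval (-1) · = 0) h).to_iff
  simp only [eval_mul, a0, b0, mul_one, mul_eq_zero, a1, a2, b1, b2, or_false] at h0 h1 h2
  obtain ⟨rfl, rfl, rfl⟩ : u = u' ∧ s = s' ∧ t = t' := by
    cases u <;> cases s <;> cases t <;> cases u' <;> cases s' <;> cases t' <;>
      simp [hd] at h0 h1 h2 ⊢
  have h3 : hd u s t ≠ 0 := fun h3 => by
    have := congrArg (eval 0) h3
    cases u <;> cases s <;> cases t <;> simp [hd] at this
  have hh : g = g' := mul_left_cancel₀ h3 h
  rw [hh]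

/-- Some coefficient has absolute value two. -/
def Two (f : ℤ[X]) : Prop := ∃ k, |f.coeff k| = 2

theorem two_neg (f : ℤ[X]) : Two (-f) ↔ Two f := by simp [Two]

theorem two_iff {g : ℤ[X]} (hg : Bdd 1 g) (d : ℕ) {ε : ℤ} (hε : ε = 1 ∨ ε = -1) :
    Two ((X ^ d + C ε) * g) ↔ Adj d ε g := by
  have key : ∀ a c : ℤ, |a| ≤ 1 → |c| ≤ 1 → (|a + ε * c| = 2 ↔ a * c = ε) := by
    intro a c ha hc
    obtain ⟨a1, a2⟩ := abs_le.1 ha
    obtain ⟨c1, c2⟩ := abs_le.1 hc
    rcases hε with rfl | rfl <;> interval_cases a <;> interval_cases c <;> simp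
  simp only [Two, Adj, add_mul, coeff_add, coeff_C_mul, coeff_X_pow_mul']
  constructor
  · rintro ⟨k, hk⟩
    split_ifs at hk with h
    · refine ⟨k - d, ?_⟩
      rw [Nat.sub_add_cancel h]
      exact (key _ _ (hg _) (hg _)).1 hk
    · have := (key 0 _ (by simp) (hg k)).1 hk
      omega
  · rintro ⟨k, hk⟩
    refine ⟨k + d, ?_⟩
    rw [if_pos (by omega), Nat.add_sub_cancel]
    exact (key _ _ (hg _) (hg _)).2 hk

theorem cnt_congr {s : Finset ℤ[X]} {P Q : ℤ[X] → Prop} (h : ∀ g ∈ s, P g ↔ Q g) :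
    cnt s P = cnt s Q := by
  classical
  rw [cnt, cnt, filter_congr h]

theorem card_DD (hq : q.Prime) (hodd : Odd q) (b : ℕ) :
    #(DD q b) = 8 * 4 ^ b ∧ 3 * cnt (DD q b) Two + 12 * 2 ^ b = 8 * 4 ^ b + 4 := by
  obtain ⟨h0, h1, h2, h3⟩ := card_SS hq hodd b
  have hB := fun g hg => (mem_SS hq hodd b g hg).2.1
  constructor
  · rw [DD, card_image_of_injOn (inj_DD hq hodd b), card_product, h0]
    simp
  have e : cnt (DD q b) Two = ∑ u, ∑ s, ∑ t, cnt (SS q b) fun g => Two (hd u s t * g) := by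
    classical
    rw [cnt, DD, filter_image, card_image_of_injOn ((inj_DD hq hodd b).mono (by
      exact_mod_cast filter_subset _ _))]
    simp only [cnt, card_filter, sum_product, Fintype.sum_prod_type]
  have en : ∀ s t g, Two (hd true s t * g) ↔ Two (hd false s t * g) := fun s t g => by
    rw [← two_neg, show -(hd true s t * g) = hd false s t * g by
      simp only [hd, if_true, Bool.false_eq_true, if_false]; ring]
  have e1 : cnt (SS q b) (fun g => Two (hd false true false * g)) = cnt (SS q b) (Adj 1 (-1)) :=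
    cnt_congr fun g hg => by rw [← two_iff (hB g hg) 1 (Or.inr rfl)]; simp [hd, sub_eq_add_neg]
  have e2 : cnt (SS q b) (fun g => Two (hd false false true * g)) = cnt (SS q b) (Adj 1 1) :=
    cnt_congr fun g hg => by rw [← two_iff (hB g hg) 1 (Or.inl rfl)]; simp [hd]
  have e3 : cnt (SS q b) (fun g => Two (hd false true true * g)) = cnt (SS q b) (Adj 2 (-1)) :=
    cnt_congr fun g hg => by
      rw [← two_iff (hB g hg) 2 (Or.inr rfl),
        show hd false true true = X ^ 2 + C (-1) by simp [hd]; ring]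
  have e4 : cnt (SS q b) (fun g => Two (hd false false false * g)) = 0 := by
    rw [← cnt_false (SS q b)]
    refine cnt_congr fun g hg => iff_false_intro ?_
    rintro ⟨k, hk⟩
    have := hB g hg k
    simp only [hd, Bool.false_eq_true, if_false, one_mul] at hk
    omega
  simp only [Fintype.sum_bool, en, e1, e2, e3, e4] at e
  omega

end Pool.Agent.Lib.MP_0523aa_nt
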