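import Mathlib

/-!
Helper lemmas for the maximal height of divisors of X^(2 q^b) - 1.
-/

namespace Pool.Agent.Lib.MP_0523aa_nt

open Polynomial Finset

/-- All coefficients are bounded by M in absolute value. -/
def Bdd (M : ℤ) (f : ℤ[X]) : Prop := ∀ k, |f.coeff k| ≤ M

/-- Coefficients at most one, and the support meets each residue class mod q at most once. -/
def Sparse (q : ℕ) (w : ℤ[X]) : Prop :=
  (∀ k, |w.coeff k| ≤ 1) ∧
    ∀ i j, w.coeff i ≠ 0 → w.coeff j ≠ 0 → i % q = j % q → i = j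

theorem bdd_nonneg {M : ℤ} {f : ℤ[X]} (h : Bdd M f) : 0 ≤ M :=
  le_trans (abs_nonneg _) (h 0)

theorem bdd_mul_expand {q : ℕ} (hq : 0 < q) {w g : ℤ[X]} (hw : Sparse q w) (hg : Bdd 1 g) :
    Bdd 1 (w * expand ℤ q g) := by
  intro n
  rw [coeff_mul]
  by_cases hex : ∃ x ∈ antidiagonal n, w.coeff x.1 * (expand ℤ q g).coeff x.2 ≠ 0
  · obtain ⟨x, hx, hx0⟩ := hex
    rw [Finset.sum_eq_single x]
    · rw [abs_mul, coeff_expand hq]
      have h1 := hw.1 x.1
      have h2 : |(if q ∣ x.2 then g.coeff (x.2 / q) else 0)| ≤ 1 := by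
        split_ifs
        · exact hg _
        · simp
      calc _ ≤ 1 * 1 := mul_le_mul h1 h2 (abs_nonneg _) zero_le_one
        _ = 1 := by norm_num
    · intro y hy hyx
      by_contra hy0
      apply hyx
      have hx1 : w.coeff x.1 ≠ 0 := left_ne_zero_of_mul hx0
      have hy1 : w.coeff y.1 ≠ 0 := left_ne_zero_of_mul hy0
      have hx2 : q ∣ x.2 := by
        have := right_ne_zero_of_mul hx0
        rw [coeff_expand hq] at this
        by_contra h
        simp [h] at this
      have hy2 : q ∣ y.2 := by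
        have := right_ne_zero_of_mul hy0
        rw [coeff_expand hq] at this
        by_contra h
        simp [h] at this
      rw [HasAntidiagonal.mem_antidiagonal] at hx hy
      obtain ⟨a, ha⟩ := hx2
      obtain ⟨c, hc⟩ := hy2
      have hmod : y.1 % q = x.1 % q := by
        have e1 : (y.1 + q * c) % q = y.1 % q := by simp
        have e2 : (x.1 + q * a) % q = x.1 % q := by simp
        rw [← e1, ← e2, ← ha, ← hc, hx, hy]
      have h1 : y.1 = x.1 := hw.2 _ _ hy1 hx1 hmod
      have h2 : y.2 = x.2 := by omega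
      exact Prod.ext h1 h2
    · intro h
      exact absurd hx h
  · push Not at hex
    rw [Finset.sum_eq_zero hex]
    simp

theorem sparse_one (q : ℕ) : Sparse q (1 : ℤ[X]) := by
  refine ⟨fun k => ?_, fun i j hi hj _ => ?_⟩
  · rw [coeff_one]
    split_ifs <;> simp
  · rw [coeff_one] at hi hj
    have hi0 : i = 0 := by
      by_contra h
      simp [h] at hi
    have hj0 : j = 0 := by
      by_contra h
      simp [h] at hj
    omega

theorem coeff_geom (q k : ℕ) :
    (∑ i ∈ range q, (X : ℤ[X]) ^ i).coeff k = if k < q then 1 else 0 := by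
  simp [coeff_X_pow]

theorem coeff_geom_neg (q k : ℕ) :
    (∑ i ∈ range q, (-X : ℤ[X]) ^ i).coeff k = if k < q then (-1) ^ k else 0 := by
  have h : ∀ i, (-X : ℤ[X]) ^ i = C ((-1) ^ i) * X ^ i := by
    intro i
    rw [neg_pow]
    simp
  simp only [h, finsetSum_coeff, coeff_C_mul, coeff_X_pow]
  simp

theorem sparse_of_lt {q : ℕ} {w : ℤ[X]} (h1 : ∀ k, |w.coeff k| ≤ 1)
    (h2 : ∀ k, w.coeff k ≠ 0 → k < q) : Sparse q w := by
  refine ⟨h1, fun i j hi hj hij => ?_⟩
  rwa [Nat.mod_eq_of_lt (h2 i hi), Nat.mod_eq_of_lt (h2 j hj)] at hij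

theorem sparse_geom (q : ℕ) : Sparse q (∑ i ∈ range q, (X : ℤ[X]) ^ i) := by
  apply sparse_of_lt
  · intro k
    rw [coeff_geom]
    split_ifs <;> simp
  · intro k hk
    rw [coeff_geom] at hk
    by_contra h
    simp [h] at hk

theorem sparse_geom_neg (q : ℕ) : Sparse q (∑ i ∈ range q, (-X : ℤ[X]) ^ i) := by
  apply sparse_of_lt
  · intro k
    rw [coeff_geom_neg]
    split_ifs <;> simp
  · intro k hk
    rw [coeff_geom_neg] at hk
    by_contra h
    simp [h] at hk

theorem sparse_geom_expand {q : ℕ} (hodd : Odd q) :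
    Sparse q (expand ℤ 2 (∑ i ∈ range q, (X : ℤ[X]) ^ i)) := by
  refine ⟨fun k => ?_, fun i j hi hj hij => ?_⟩
  · rw [coeff_expand (by norm_num), coeff_geom]
    split_ifs <;> simp
  · rw [coeff_expand (by norm_num), coeff_geom] at hi hj
    have hi2 : 2 ∣ i := by
      by_contra h
      simp [h] at hi
    have hj2 : 2 ∣ j := by
      by_contra h
      simp [h] at hj
    have hi3 : i / 2 < q := by
      by_contra h
      simp [h] at hi
    have hj3 : j / 2 < q := by
      by_contra h
      simp [h] at hj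
    obtain ⟨a, rfl⟩ := hi2
    obtain ⟨c, rfl⟩ := hj2
    have ha : a < q := by omega
    have hc : c < q := by omega
    have hco : Nat.Coprime q 2 := hodd.coprime_two_right
    have : a ≡ c [MOD q] := Nat.ModEq.cancel_left_of_coprime hco hij
    have hac : a = c := Nat.ModEq.eq_of_lt_of_lt this ha hc
    rw [hac]

theorem X_add_one_ne : (X + 1 : ℤ[X]) ≠ 0 := by
  have := X_add_C_ne_zero (1 : ℤ)
  simpa using this

theorem cyc_two_mul {q : ℕ} (hq : q.Prime) (hodd : Odd q) :
    cyclotomic (2 * q) ℤ * (X + 1) = X ^ q + 1 := by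
  have hnd : ¬ q ∣ 2 := by
    intro h
    have := (Nat.prime_dvd_prime_iff_eq hq Nat.prime_two).1 h
    subst this
    exact absurd hodd (by decide)
  have := cyclotomic_expand_eq_cyclotomic_mul hq hnd ℤ
  rw [cyclotomic_two] at this
  rw [← this]
  simp

theorem cyc_two_eq {q : ℕ} (hq : q.Prime) (hodd : Odd q) :
    cyclotomic (2 * q) ℤ = ∑ i ∈ range q, (-X : ℤ[X]) ^ i := by
  apply mul_right_cancel₀ X_add_one_ne
  rw [cyc_two_mul hq hodd]
  have := geom_sum_mul (-X : ℤ[X]) q
  rw [hodd.neg_pow] at this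
  linear_combination this

theorem cyc_mul_cyc {q : ℕ} (hq : q.Prime) (hodd : Odd q) :
    cyclotomic q ℤ * cyclotomic (2 * q) ℤ = expand ℤ 2 (∑ i ∈ range q, (X : ℤ[X]) ^ i) := by
  have hnd : ¬ 2 ∣ q := by
    intro h
    exact (Nat.not_even_iff_odd.2 hodd) (even_iff_two_dvd.2 h)
  have : Fact q.Prime := ⟨hq⟩
  have := cyclotomic_expand_eq_cyclotomic_mul Nat.prime_two hnd ℤ
  rw [← cyclotomic_prime ℤ q, this, mul_comm q 2, mul_comm]

/-- The factor chosen at level i + 1. -/
noncomputable def lev (q : ℕ) (s t : Bool) (i : ℕ) : ℤ[X] :=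
  (if s then cyclotomic (q ^ (i + 1)) ℤ else 1) * (if t then cyclotomic (2 * q ^ (i + 1)) ℤ else 1)

/-- The product of the factors chosen at the levels 1, ..., b. -/
noncomputable def tail (q : ℕ) (s t : ℕ → Bool) (b : ℕ) : ℤ[X] :=
  ∏ i ∈ range b, lev q (s i) (t i) i

theorem expand_lev {q : ℕ} (hq : q.Prime) (s t : Bool) (i : ℕ) :
    expand ℤ q (lev q s t i) = lev q s t (i + 1) := by
  have h1 : expand ℤ q (cyclotomic (q ^ (i + 1)) ℤ) = cyclotomic (q ^ (i + 1 + 1)) ℤ := by
    rw [cyclotomic_expand_eq_cyclotomic hq (dvd_pow_self q (by omega)), ← pow_succ]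
  have h2 : expand ℤ q (cyclotomic (2 * q ^ (i + 1)) ℤ) = cyclotomic (2 * q ^ (i + 1 + 1)) ℤ := by
    rw [cyclotomic_expand_eq_cyclotomic hq (Dvd.dvd.mul_left (dvd_pow_self q (by omega)) 2),
      mul_assoc, ← pow_succ]
  unfold lev
  rw [map_mul]
  cases s <;> cases t <;> simp [h1, h2]

theorem tail_succ {q : ℕ} (hq : q.Prime) (s t : ℕ → Bool) (b : ℕ) :
    tail q s t (b + 1) =
      lev q (s 0) (t 0) 0 * expand ℤ q (tail q (fun i => s (i + 1)) (fun i => t (i + 1)) b) := by
  unfold tail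
  rw [Finset.prod_range_succ', map_prod, mul_comm]
  congr 1
  apply Finset.prod_congr rfl
  intro i _
  rw [expand_lev hq]

theorem sparse_lev {q : ℕ} (hq : q.Prime) (hodd : Odd q) (s t : Bool) :
    Sparse q (lev q s t 0) := by
  have : Fact q.Prime := ⟨hq⟩
  unfold lev
  cases s <;> cases t
  · simpa using sparse_one q
  · simp only [zero_add, pow_one]
    rw [cyc_two_eq hq hodd]
    simpa using sparse_geom_neg q
  · simp only [zero_add, pow_one]
    rw [cyclotomic_prime ℤ q]
    simpa using sparse_geom q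
  · simp only [zero_add, pow_one, if_true]
    rw [cyc_mul_cyc hq hodd]
    exact sparse_geom_expand hodd

theorem bdd_tail {q : ℕ} (hq : q.Prime) (hodd : Odd q) (b : ℕ) :
    ∀ s t : ℕ → Bool, Bdd 1 (tail q s t b) := by
  induction b with
  | zero =>
    intro s t k
    simp only [tail, range_zero, prod_empty, coeff_one]
    split_ifs <;> simp
  | succ b ih =>
    intro s t
    rw [tail_succ hq]
    exact bdd_mul_expand hq.pos (sparse_lev hq hodd _ _) (ih _ _)

theorem full_prod {q : ℕ} (hq : q.Prime) (hodd : Odd q) (b : ℕ) :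
    (X - 1) * (X + 1) * tail q (fun _ => true) (fun _ => true) b = X ^ (2 * q ^ b) - 1 := by
  have : Fact q.Prime := ⟨hq⟩
  induction b with
  | zero =>
    simp only [tail, range_zero, prod_empty, pow_zero]
    ring
  | succ b ih =>
    rw [tail_succ hq]
    have h1 : cyclotomic q ℤ * (X - 1) = X ^ q - 1 := cyclotomic_prime_mul_X_sub_one ℤ q
    have h2 := cyc_two_mul hq hodd
    have h3 := congrArg (expand ℤ q) ih
    simp only [map_mul, map_sub, map_add, map_one, map_pow, expand_X] at h3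
    have h4 : ((X : ℤ[X]) ^ q) ^ (2 * q ^ b) = X ^ (2 * q ^ (b + 1)) := by
      rw [← pow_mul]
      congr 1
      ring
    rw [h4] at h3
    rw [← h3, ← h1, ← h2]
    simp only [lev, zero_add, pow_one, if_true]
    ring

theorem dvd_irred_split {f g p : ℤ[X]} (hp : Irreducible p) (h : f ∣ g * p) :
    ∃ f₁ : ℤ[X], ∃ s : Bool, f₁ ∣ g ∧ Associated f (f₁ * (if s then p else 1)) := by
  obtain ⟨a₁, a₂, h1, h2, rfl⟩ := exists_dvd_and_dvd_of_dvd_mul h
  rcases hp.dvd_iff.1 h2 with hu | ha
  · refine ⟨a₁, false, h1, ?_⟩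
    simpa using (associated_mul_unit_left a₁ a₂ hu)
  · refine ⟨a₁, true, h1, ?_⟩
    simpa using (Associated.mul_left a₁ ha.symm)

theorem dvd_tail {q : ℕ} (hq : q.Prime) (b : ℕ) :
    ∀ f : ℤ[X], f ∣ tail q (fun _ => true) (fun _ => true) b →
      ∃ s t : ℕ → Bool, Associated f (tail q s t b) := by
  induction b with
  | zero =>
    intro f hf
    refine ⟨fun _ => true, fun _ => true, ?_⟩
    simp only [tail, range_zero, prod_empty] at hf ⊢
    exact associated_one_iff_isUnit.2 (isUnit_of_dvd_one hf)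
  | succ b ih =>
    intro f hf
    have hpos : 0 < q ^ (b + 1) := pow_pos hq.pos _
    have i1 : Irreducible (cyclotomic (q ^ (b + 1)) ℤ) := cyclotomic.irreducible hpos
    have i2 : Irreducible (cyclotomic (2 * q ^ (b + 1)) ℤ) := cyclotomic.irreducible (by omega)
    have e : tail q (fun _ => true) (fun _ => true) (b + 1) =
        tail q (fun _ => true) (fun _ => true) b * cyclotomic (q ^ (b + 1)) ℤ *
          cyclotomic (2 * q ^ (b + 1)) ℤ := by
      unfold tail
      rw [Finset.prod_range_succ]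
      simp only [lev, if_true]
      ring
    rw [e] at hf
    obtain ⟨f₁, t0, h1, h1a⟩ := dvd_irred_split i2 hf
    obtain ⟨f₂, s0, h2, h2a⟩ := dvd_irred_split i1 h1
    obtain ⟨s, t, h3⟩ := ih f₂ h2
    refine ⟨Function.update s b s0, Function.update t b t0, ?_⟩
    have e2 : tail q (Function.update s b s0) (Function.update t b t0) (b + 1) =
        tail q s t b * (if s0 then cyclotomic (q ^ (b + 1)) ℤ else 1) *
          (if t0 then cyclotomic (2 * q ^ (b + 1)) ℤ else 1) := by
      unfold tail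
      rw [Finset.prod_range_succ, mul_assoc]
      congr 1
      · apply Finset.prod_congr rfl
        intro i hi
        have : i ≠ b := by
          have := Finset.mem_range.1 hi
          omega
        simp [Function.update_of_ne this]
      · simp [lev]
    rw [e2]
    exact h1a.trans (Associated.mul_right (h2a.trans (Associated.mul_right h3 _)) _)

theorem bdd_of_associated {M : ℤ} {f g : ℤ[X]} (h : Associated f g) (hg : Bdd M g) : Bdd M f := by
  obtain ⟨u, hu⟩ := h
  obtain ⟨r, hr, hru⟩ := Polynomial.isUnit_iff.1 u.isUnit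
  intro k
  have hk := hg k
  rw [← hu, ← hru, coeff_mul_C, abs_mul] at hk
  rcases Int.isUnit_iff.1 hr with rfl | rfl <;> simpa using hk

theorem bdd_X_pow_mul {M : ℤ} {g : ℤ[X]} (hg : Bdd M g) (m : ℕ) : Bdd M (X ^ m * g) := by
  intro k
  rw [coeff_X_pow_mul']
  split_ifs
  · exact hg _
  · simpa using bdd_nonneg hg

theorem bdd_add {f g : ℤ[X]} (hf : Bdd 1 f) (hg : Bdd 1 g) : Bdd 2 (f + g) := by
  intro k
  rw [coeff_add]
  have := abs_add_le (f.coeff k) (g.coeff k)
  have h1 := hf k
  have h2 := hg k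
  omega

theorem bdd_sub {f g : ℤ[X]} (hf : Bdd 1 f) (hg : Bdd 1 g) : Bdd 2 (f - g) := by
  intro k
  rw [coeff_sub]
  have := abs_sub (f.coeff k) (g.coeff k)
  have h1 := hf k
  have h2 := hg k
  omega

theorem bdd_two {q : ℕ} (hq : q.Prime) (hodd : Odd q) (b : ℕ) (f : ℤ[X])
    (hf : f ∣ X ^ (2 * q ^ b) - 1) : Bdd 2 f := by
  rw [← full_prod hq hodd b] at hf
  have i1 : Irreducible (X - 1 : ℤ[X]) := by
    simpa using (cyclotomic.irreducible (n := 1) (by norm_num))
  have i2 : Irreducible (X + 1 : ℤ[X]) := by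
    simpa using (cyclotomic.irreducible (n := 2) (by norm_num))
  have e : (X - 1) * (X + 1) * tail q (fun _ => true) (fun _ => true) b =
      tail q (fun _ => true) (fun _ => true) b * (X - 1) * (X + 1) := by ring
  rw [e] at hf
  obtain ⟨f₁, t0, h1, h1a⟩ := dvd_irred_split i2 hf
  obtain ⟨f₂, s0, h2, h2a⟩ := dvd_irred_split i1 h1
  obtain ⟨s, t, h3⟩ := dvd_tail hq b f₂ h2
  have ha : Associated f (tail q s t b * (if s0 then X - 1 else 1) * (if t0 then X + 1 else 1)) :=
    h1a.trans (Associated.mul_right (h2a.trans (Associated.mul_right h3 _)) _)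
  apply bdd_of_associated ha
  have hT := bdd_tail hq hodd b s t
  cases s0 <;> cases t0
  · intro k
    have := hT k
    simp only [Bool.false_eq_true, if_false, mul_one]
    omega
  · have e1 : tail q s t b * (if false then X - 1 else 1) * (if true then X + 1 else 1) =
        X ^ 1 * tail q s t b + tail q s t b := by
      simp only [Bool.false_eq_true, if_false, if_true]
      ring
    rw [e1]
    exact bdd_add (bdd_X_pow_mul hT 1) hT
  · have e1 : tail q s t b * (if true then X - 1 else 1) * (if false then X + 1 else 1) =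
        X ^ 1 * tail q s t b - tail q s t b := by
      simp only [Bool.false_eq_true, if_false, if_true]
      ring
    rw [e1]
    exact bdd_sub (bdd_X_pow_mul hT 1) hT
  · have e1 : tail q s t b * (if true then X - 1 else 1) * (if true then X + 1 else 1) =
        X ^ 2 * tail q s t b - tail q s t b := by
      simp only [if_true]
      ring
    rw [e1]
    exact bdd_sub (bdd_X_pow_mul hT 2) hT

theorem witness {q : ℕ} (hq : q.Prime) (b : ℕ) (hb : 0 < b) :
    ((X + 1) * ∑ i ∈ range q, (X : ℤ[X]) ^ i) ∣ X ^ (2 * q ^ b) - 1 ∨ ¬ Odd q := by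
  by_cases hodd : Odd q
  · left
    have h1 : ((X + 1) * ∑ i ∈ range q, (X : ℤ[X]) ^ i) ∣ X ^ (2 * q) - 1 := by
      refine ⟨(X - 1) * cyclotomic (2 * q) ℤ, ?_⟩
      have e1 := geom_sum_mul (X : ℤ[X]) q
      have e2 := cyc_two_mul hq hodd
      have e3 : (X : ℤ[X]) ^ (2 * q) - 1 = (X ^ q - 1) * (X ^ q + 1) := by ring
      rw [e3, ← e1, ← e2]
      ring
    refine h1.trans ?_
    obtain ⟨c, rfl⟩ : ∃ c, b = c + 1 := ⟨b - 1, by omega⟩
    have e4 : (X : ℤ[X]) ^ (2 * q ^ (c + 1)) = (X ^ (2 * q)) ^ (q ^ c) := by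
      rw [← pow_mul]
      congr 1
      ring
    rw [e4]
    simpa using sub_dvd_pow_sub_pow ((X : ℤ[X]) ^ (2 * q)) 1 (q ^ c)
  · right
    exact hodd

theorem witness_coeff {q : ℕ} (hq : q.Prime) :
    ((X + 1) * ∑ i ∈ range q, (X : ℤ[X]) ^ i).coeff 1 = 2 := by
  have h2 := hq.two_le
  rw [add_mul, one_mul, coeff_add, coeff_X_mul, coeff_geom, coeff_geom]
  rw [if_pos (by omega), if_pos (by omega)]
  norm_num

end Pool.Agent.Lib.MP_0523aa_nt
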